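import Pool.Agent.Helper118.Yud.G3

/-!
Coexistence of partial oscillator death and partial oscillator locking in the Winfree model.
-/

namespace Pool.Agent.Results.MP_3a3e96_an.CoexistenceHolds

open Set Filter Topology

noncomputable section

/-- Right-hand side of the Winfree model. -/
def rhs {N : ℕ} (κ : ℝ) (ω θ : Fin N → ℝ) (i : Fin N) : ℝ :=
  ω i - κ / N * (∑ j, (1 + Real.cos (θ j))) * Real.sin (θ i)

/-- `Θ` is a solution on `[0,∞)` of the Winfree model with initial phases `Θ₀`. -/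
def IsSolution {N : ℕ} (κ : ℝ) (ω Θ₀ : Fin N → ℝ) (Θ : ℝ → Fin N → ℝ) : Prop :=
  Θ 0 = Θ₀ ∧ ∀ t, 0 ≤ t → ∀ i, HasDerivWithinAt (fun s => Θ s i) (rhs κ ω (Θ t) i) (Ici 0) t

/-- `B`-partial oscillator death. -/
def PartialDeath {N : ℕ} (B : Finset (Fin N)) (Θ : ℝ → Fin N → ℝ) : Prop :=
  ∀ i ∈ B, ∃ K : ℝ, ∀ t, 0 ≤ t → |Θ t i| ≤ K

/-- `C`-partial oscillator locking. -/
def PartialLocking {N : ℕ} (C : Finset (Fin N)) (Θ : ℝ → Fin N → ℝ) : Prop :=
  (∀ i ∈ C, ∀ j ∈ C, ∃ K : ℝ, ∀ t, 0 ≤ t → |Θ t i - Θ t j| ≤ K) ∧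
    ∀ i ∈ C, ¬ Tendsto (fun t => Θ t i / t) atTop (𝓝 0)

/-- A barrier lemma for finite families of functions. -/
lemma barrier {ι : Type*} [Finite ι] (f f' : ι → ℝ → ℝ) (m : ℝ)
    (hc : ∀ k, ContinuousOn (f k) (Ici 0)) (hf : ∀ k t, 0 < t → HasDerivAt (f k) (f' k t) t)
    (h0 : ∀ k, f k 0 < m)
    (hb : ∀ t, 0 < t → (∀ l, f l t ≤ m) → ∀ k, f k t = m → f' k t < 0) :
    ∀ k t, 0 ≤ t → f k t < m := by
  by_contra hcon
  push Not at hcon
  obtain ⟨k₀, t₀, ht₀, hm₀⟩ := hcon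
  set S : Set ℝ := {t | 0 ≤ t ∧ ∃ k, m ≤ f k t} with hS
  have hne : S.Nonempty := ⟨t₀, ht₀, k₀, hm₀⟩
  have hbd : BddBelow S := ⟨0, fun t ht => ht.1⟩
  have hcl : IsClosed S := by
    have : S = ⋃ k, (Ici 0 ∩ (f k) ⁻¹' (Ici m)) := by
      ext t
      simp only [hS, mem_ofPred_eq, mem_iUnion, mem_inter_iff, mem_Ici, mem_preimage]
      constructor
      · rintro ⟨h1, k, h2⟩; exact ⟨k, h1, h2⟩
      · rintro ⟨k, h1, h2⟩; exact ⟨h1, k, h2⟩
    rw [this]
    exact isClosed_iUnion_of_finite fun k => (hc k).preimage_isClosed_of_isClosed isClosed_Ici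
      isClosed_Ici
  set T := sInf S with hT
  have hTS : T ∈ S := hcl.csInf_mem hne hbd
  obtain ⟨hT0, k, hk⟩ := hTS
  have hTpos : 0 < T := by
    rcases hT0.eq_or_lt with h | h
    · rw [← h] at hk
      exact absurd (h0 k) (not_lt.mpr hk)
    · exact h
  have hbefore : ∀ s, 0 ≤ s → s < T → ∀ l, f l s < m := by
    intro s hs hsT l
    by_contra h
    exact absurd (csInf_le hbd (⟨hs, l, not_lt.mp h⟩ : s ∈ S)) (not_le.mpr hsT)
  have hev : ∀ᶠ s in 𝓝[<] T, 0 ≤ s ∧ s < T := by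
    filter_upwards [Ioo_mem_nhdsLT hTpos] with s hs
    exact ⟨hs.1.le, hs.2⟩
  have hle : ∀ l, f l T ≤ m := by
    intro l
    have hct : Tendsto (f l) (𝓝[<] T) (𝓝 (f l T)) :=
      (hf l T hTpos).continuousAt.tendsto.mono_left nhdsWithin_le_nhds
    refine le_of_tendsto hct ?_
    filter_upwards [hev] with s hs
    exact (hbefore s hs.1 hs.2 l).le
  have hkm : f k T = m := le_antisymm (hle k) hk
  have hneg := hb T hTpos hle k hkm
  have hslope := hasDerivAt_iff_tendsto_slope.mp (hf k T hTpos)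
  have hslope' : Tendsto (slope (f k) T) (𝓝[<] T) (𝓝 (f' k T)) :=
    hslope.mono_left (nhdsWithin_mono _ (fun s hs => ne_of_lt hs))
  have hev2 := hslope'.eventually_lt_const hneg
  obtain ⟨s, hs1, hs2⟩ := (hev.and hev2).exists
  have h3 := hbefore s hs1.1 hs1.2 k
  rw [slope_def_field, hkm] at hs2
  have h4 : 0 < (f k s - m) / (s - T) := div_pos_of_neg_of_neg (by linarith) (by linarith [hs1.2])
  linarith

/-! ### Existence -/

lemma sum_bounds {N : ℕ} (θ : Fin N → ℝ) :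
    0 ≤ ∑ j, (1 + Real.cos (θ j)) ∧ ∑ j, (1 + Real.cos (θ j)) ≤ 2 * N := by
  constructor
  · exact Finset.sum_nonneg fun j _ => by linarith [Real.neg_one_le_cos (θ j)]
  · have : ∑ j : Fin N, (1 + Real.cos (θ j)) ≤ ∑ _j : Fin N, (2 : ℝ) :=
      Finset.sum_le_sum fun j _ => by linarith [Real.cos_le_one (θ j)]
    simpa [mul_comm] using this

lemma rhs_lipschitz {N : ℕ} (hN : 1 ≤ N) (κ : ℝ) (hκ : 0 ≤ κ) (ω : Fin N → ℝ) :
    LipschitzWith (Real.toNNReal (3 * κ)) (fun θ : Fin N → ℝ => fun i => rhs κ ω θ i) := by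
  have hN' : (0 : ℝ) < N := by exact_mod_cast hN
  apply LipschitzWith.of_dist_le_mul
  intro θ θ'
  rw [Real.coe_toNNReal _ (by positivity), dist_pi_le_iff (by positivity)]
  intro i
  have hd : ∀ j, |θ j - θ' j| ≤ dist θ θ' := by
    intro j
    rw [← Real.dist_eq]
    exact dist_le_pi_dist θ θ' j
  rw [Real.dist_eq]
  have e : rhs κ ω θ i - rhs κ ω θ' i =
      -(κ / N * ((∑ j, (1 + Real.cos (θ j))) * (Real.sin (θ i) - Real.sin (θ' i)) +
        (∑ j, (Real.cos (θ j) - Real.cos (θ' j))) * Real.sin (θ' i))) := by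
    have : ∑ j, (Real.cos (θ j) - Real.cos (θ' j)) =
        ∑ j, (1 + Real.cos (θ j)) - ∑ j, (1 + Real.cos (θ' j)) := by
      rw [← Finset.sum_sub_distrib]
      exact Finset.sum_congr rfl fun j _ => by ring
    rw [this, rhs, rhs]; ring
  rw [e, abs_neg, abs_mul, abs_of_nonneg (by positivity : 0 ≤ κ / N)]
  have h1 : |(∑ j, (1 + Real.cos (θ j))) * (Real.sin (θ i) - Real.sin (θ' i))| ≤
      2 * N * dist θ θ' := by
    rw [abs_mul, abs_of_nonneg (sum_bounds θ).1]
    exact mul_le_mul (sum_bounds θ).2 ((Real.abs_sin_sub_sin_le _ _).trans (hd i)) (abs_nonneg _)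
      (by positivity)
  have h2 : |(∑ j, (Real.cos (θ j) - Real.cos (θ' j))) * Real.sin (θ' i)| ≤ N * dist θ θ' := by
    rw [abs_mul]
    have h3 : |∑ j, (Real.cos (θ j) - Real.cos (θ' j))| ≤ N * dist θ θ' := by
      refine (Finset.abs_sum_le_sum_abs _ _).trans ?_
      have : ∑ j : Fin N, |Real.cos (θ j) - Real.cos (θ' j)| ≤ ∑ _j : Fin N, dist θ θ' :=
        Finset.sum_le_sum fun j _ => (Real.abs_cos_sub_cos_le _ _).trans (hd j)
      simpa using this
    calc _ ≤ (N * dist θ θ') * 1 := mul_le_mul h3 (Real.abs_sin_le_one _) (abs_nonneg _)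
          (by positivity)
      _ = _ := mul_one _
  have h3 := (abs_add_le _ _).trans (add_le_add h1 h2)
  calc _ ≤ κ / N * (2 * N * dist θ θ' + N * dist θ θ') :=
        mul_le_mul_of_nonneg_left h3 (by positivity)
    _ = 3 * κ * dist θ θ' := by field_simp; ring

lemma exists_solution {N : ℕ} (hN : 1 ≤ N) (κ : ℝ) (hκ : 0 ≤ κ) (ω Θ₀ : Fin N → ℝ) :
    ∃ Θ, IsSolution κ ω Θ₀ Θ := by
  have hL := rhs_lipschitz hN κ hκ ω
  obtain ⟨ξ, h0, h1⟩ := Pool.Agent.Helper118.Yud.global_ode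
    (fun _ θ => fun i => rhs κ ω θ i) _ (fun _ => hL)
    (hL.continuous.comp continuous_snd) Θ₀
  refine ⟨ξ, h0, fun t _ i => ?_⟩
  exact ((hasDerivAt_pi.mp (h1 t)) i).hasDerivWithinAt

/-! ### Constants -/

/-- coupling strength -/
def κ₀ : ℝ := 1 / 1000

/-- frequency width -/
def γ₀ : ℝ := 1 / 100000000

section analysis

variable {N : ℕ} (hN : 1 ≤ N) {ω Θ₀ : Fin N → ℝ} {Θ : ℝ → Fin N → ℝ}
  (hsol : IsSolution κ₀ ω (fun _ => 0) Θ)

include hsol

lemma cont_coord (i : Fin N) : ContinuousOn (fun s => Θ s i) (Ici 0) :=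
  fun t ht => (hsol.2 t ht i).continuousWithinAt

lemma deriv_coord (i : Fin N) (t : ℝ) (ht : 0 < t) :
    HasDerivAt (fun s => Θ s i) (rhs κ₀ ω (Θ t) i) t :=
  (hsol.2 t ht.le i).hasDerivAt (Ici_mem_nhds ht)

lemma zero_coord (i : Fin N) : Θ 0 i = 0 := congrFun hsol.1 i

include hN

/-- Members of `B` stay near zero. -/
lemma death (B : Finset (Fin N)) (hB : (1 / 4 : ℝ) * N ≤ B.card)
    (hω : ∀ i ∈ B, ω i ∈ Icc (-γ₀) γ₀) :
    ∀ i ∈ B, ∀ t, 0 ≤ t → |Θ t i| < 1 / 200 := by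
  have hN' : (0 : ℝ) < N := by exact_mod_cast hN
  have key := barrier (ι := {i // i ∈ B} × Bool)
    (f := fun k t => if k.2 then Θ t k.1 else -Θ t k.1)
    (f' := fun k t => if k.2 then rhs κ₀ ω (Θ t) k.1 else -rhs κ₀ ω (Θ t) k.1) (m := 1 / 200)
    (by
      rintro ⟨i, b⟩
      cases b
      · simp only [Bool.false_eq_true, if_false]
        exact (cont_coord hsol i).fun_neg
      · simp only [if_true]
        exact cont_coord hsol i)
    (by
      rintro ⟨i, b⟩ t ht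
      cases b
      · simp only [Bool.false_eq_true, if_false]
        exact (deriv_coord hsol i t ht).fun_neg
      · simp only [if_true]
        exact deriv_coord hsol i t ht)
    (by
      rintro ⟨i, b⟩
      cases b <;> simp [zero_coord hsol])
    (by
      intro t ht hall k hk
      have habs : ∀ j ∈ B, |Θ t j| ≤ 1 / 200 := by
        intro j hj
        have h1 := hall (⟨j, hj⟩, true)
        have h2 := hall (⟨j, hj⟩, false)
        simp only [if_true, Bool.false_eq_true, if_false] at h1 h2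
        rw [abs_le]
        constructor <;> linarith
      have hS : (1.9 : ℝ) * B.card ≤ ∑ j, (1 + Real.cos (Θ t j)) := by
        calc (1.9 : ℝ) * B.card = ∑ _j ∈ B, (1.9 : ℝ) := by simp [mul_comm]
          _ ≤ ∑ j ∈ B, (1 + Real.cos (Θ t j)) := by
            apply Finset.sum_le_sum
            intro j hj
            have h1 := Real.one_sub_sq_div_two_le_cos (x := Θ t j)
            have h2 : (Θ t j) ^ 2 ≤ (1 / 200) ^ 2 := by
              rw [← sq_abs]
              exact pow_le_pow_left₀ (abs_nonneg _) (habs j hj) 2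
            norm_num at h2
            linarith
          _ ≤ ∑ j, (1 + Real.cos (Θ t j)) := by
            apply Finset.sum_le_univ_sum_of_nonneg
            intro j
            linarith [Real.neg_one_le_cos (Θ t j)]
      have hsin : (0.0049 : ℝ) < Real.sin (1 / 200) := by
        have := Real.sin_gt_sub_cube (x := 1 / 200) (by norm_num)
        norm_num at this ⊢
        linarith
      have hR : (0.475 : ℝ) ≤ (∑ j, (1 + Real.cos (Θ t j))) / N := by
        rw [le_div_iff₀ hN']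
        linarith
      have hprod : (0.001 : ℝ) * (0.475 * 0.0049) ≤
          κ₀ / N * (∑ j, (1 + Real.cos (Θ t j))) * Real.sin (1 / 200) := by
        have : κ₀ / N * (∑ j, (1 + Real.cos (Θ t j))) * Real.sin (1 / 200) =
            0.001 * ((∑ j, (1 + Real.cos (Θ t j))) / N * Real.sin (1 / 200)) := by
          rw [κ₀]; ring
        rw [this]
        apply mul_le_mul_of_nonneg_left _ (by norm_num)
        exact mul_le_mul hR hsin.le (by norm_num) (by linarith)
      obtain ⟨⟨i, hi⟩, b⟩ := k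
      have hωi := hω i hi
      rw [γ₀] at hωi
      cases b
      · simp only [Bool.false_eq_true, if_false] at hk ⊢
        have hΘ : Θ t i = -(1 / 200) := by linarith
        rw [rhs, hΘ, Real.sin_neg]
        have := hωi.1
        nlinarith
      · simp only [if_true] at hk ⊢
        rw [rhs, hk]
        have := hωi.2
        nlinarith)
  intro i hi t ht
  have h1 := key (⟨i, hi⟩, true) t ht
  have h2 := key (⟨i, hi⟩, false) t ht
  simp only [if_true, Bool.false_eq_true, if_false] at h1 h2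
  rw [abs_lt]
  constructor <;> linarith

end analysis

/-! ### The locking estimate -/

/-- `|2 sin (d/2) - d| ≤ d³/24` for `0 ≤ d`. -/
lemma two_sin_half (d : ℝ) (hd : 0 < d) : |2 * Real.sin (d / 2) - d| ≤ d ^ 3 / 24 := by
  have h1 := Real.sin_gt_sub_cube (x := d / 2) (by linarith)
  have h2 := Real.sin_lt (x := d / 2) (by linarith)
  rw [abs_le]
  constructor
  · have : (d / 2) ^ 3 / 6 = d ^ 3 / 48 := by ring
    linarith
  · have : 0 ≤ d ^ 3 / 24 := by positivity
    linarith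

/-- The key real inequality. -/
lemma key_ineq (a b o R c cψ S d p Δ : ℝ) (ha : 0 ≤ a) (hb : 5 / 8 ≤ b) (hab : a + b / 2 ≤ 2)
    (ho : 0 ≤ o) (ho' : o ≤ 1 / 4) (hc : |c| ≤ 1) (hR : |R - (a + b * c + o)| ≤ 0.0102)
    (hR0 : 0 ≤ R) (hR2 : R ≤ 2) (hcψ : |cψ - c| ≤ 0.0051) (hcψ1 : |cψ| ≤ 1)
    (hd : 0.0049 ≤ d) (hd' : d ≤ 0.0051) (hS : |S - d| ≤ d ^ 3 / 24)
    (hp : |p - 1| ≤ 0.0021) (hΔ : Δ ≤ 2 * γ₀) :
    Δ - κ₀ * R * cψ * S + κ₀ * d * (a * c + b / 2 * (2 * c ^ 2 - 1)) * p < 0 := by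
  have hd0 : 0 < d := by linarith
  -- lower bound for R cψ
  have h1 : (a + b * c + o) * c - 0.0102 - 2 * 0.0051 ≤ R * cψ := by
    have e1 : |R * (cψ - c)| ≤ 2 * 0.0051 := by
      rw [abs_mul, abs_of_nonneg hR0]
      exact mul_le_mul hR2 hcψ (abs_nonneg _) (by norm_num)
    have e2 : |(R - (a + b * c + o)) * c| ≤ 0.0102 * 1 := by
      rw [abs_mul]
      exact mul_le_mul hR hc (abs_nonneg _) (by norm_num)
    have e3 : R * cψ = R * (cψ - c) + (R - (a + b * c + o)) * c + (a + b * c + o) * c := by ring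
    have e4 := (abs_le.mp e1).1
    have e5 := (abs_le.mp e2).1
    linarith
  -- R cψ S
  have h2 : d * ((a + b * c + o) * c - 0.0102 - 2 * 0.0051) - 2 * (d ^ 3 / 24) ≤ R * cψ * S := by
    have e1 : |R * cψ * (S - d)| ≤ (2 * 1) * (d ^ 3 / 24) := by
      rw [abs_mul, abs_mul, abs_of_nonneg hR0]
      exact mul_le_mul (mul_le_mul hR2 hcψ1 (abs_nonneg _) (by norm_num)) hS (abs_nonneg _)
        (by norm_num)
    have e2 : R * cψ * S = d * (R * cψ) + R * cψ * (S - d) := by ring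
    have e3 := mul_le_mul_of_nonneg_left h1 hd0.le
    have e4 := (abs_le.mp e1).1
    linarith
  -- the compensating term
  have hc2 : c ^ 2 ≤ 1 := by rw [← sq_abs]; exact pow_le_one₀ (abs_nonneg _) hc
  have h3 : |a * c + b / 2 * (2 * c ^ 2 - 1)| ≤ 2 := by
    have e1 : |a * c| ≤ a * 1 := by
      rw [abs_mul, abs_of_nonneg ha]; exact mul_le_mul_of_nonneg_left hc ha
    have e2 : |b / 2 * (2 * c ^ 2 - 1)| ≤ b / 2 * 1 := by
      rw [abs_mul, abs_of_nonneg (by linarith : 0 ≤ b / 2)]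
      apply mul_le_mul_of_nonneg_left _ (by linarith)
      rw [abs_le]
      constructor <;> nlinarith [sq_nonneg c]
    have := (abs_add_le (a * c) (b / 2 * (2 * c ^ 2 - 1))).trans (add_le_add e1 e2)
    linarith
  have h4 : (a * c + b / 2 * (2 * c ^ 2 - 1)) * p ≤
      (a * c + b / 2 * (2 * c ^ 2 - 1)) + 2 * 0.0021 := by
    have e1 : |(a * c + b / 2 * (2 * c ^ 2 - 1)) * (p - 1)| ≤ 2 * 0.0021 := by
      rw [abs_mul]
      exact mul_le_mul h3 hp (abs_nonneg _) (by norm_num)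
    have e2 := (abs_le.mp e1).2
    linarith
  have h5 : -(o * c) ≤ 1 / 4 := by
    have e1 : |o * c| ≤ 1 / 4 * 1 := by
      rw [abs_mul, abs_of_nonneg ho]
      exact mul_le_mul ho' hc (abs_nonneg _) (by norm_num)
    have := (abs_le.mp e1).1
    linarith
  have h6 := mul_le_mul_of_nonneg_left h4 hd0.le
  have hd3 : d ^ 3 ≤ d * 0.0001 := by
    have : d ^ 2 ≤ 0.0001 := by nlinarith
    calc d ^ 3 = d * d ^ 2 := by ring
      _ ≤ d * 0.0001 := mul_le_mul_of_nonneg_left this hd0.le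
  -- combine
  have h7 : -(R * cψ * S) + d * ((a * c + b / 2 * (2 * c ^ 2 - 1)) * p) ≤ -(0.03 * d) := by
    have e1 : -(R * cψ * S) ≤
        -(d * ((a + b * c + o) * c - 0.0102 - 2 * 0.0051)) + 2 * (d ^ 3 / 24) := by linarith
    have e2 : -(d * ((a + b * c + o) * c - 0.0102 - 2 * 0.0051)) +
        d * ((a * c + b / 2 * (2 * c ^ 2 - 1)) + 2 * 0.0021) =
        d * (-(o * c) - b / 2 + 0.0102 + 2 * 0.0051 + 2 * 0.0021) := by ring
    have e3 : d * (-(o * c) - b / 2 + 0.0102 + 2 * 0.0051 + 2 * 0.0021) ≤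
        d * (1 / 4 - 5 / 16 + 0.0102 + 2 * 0.0051 + 2 * 0.0021) := by
      apply mul_le_mul_of_nonneg_left _ hd0.le
      linarith
    have e4 : d * (1 / 4 - 5 / 16 + 0.0102 + 2 * 0.0051 + 2 * 0.0021) ≤ -(0.037 * d) := by
      have : (1 / 4 - 5 / 16 + 0.0102 + 2 * 0.0051 + 2 * 0.0021 : ℝ) ≤ -0.037 := by norm_num
      have := mul_le_mul_of_nonneg_left this hd0.le
      linarith
    linarith
  have h8 : Δ - κ₀ * R * cψ * S + κ₀ * d * (a * c + b / 2 * (2 * c ^ 2 - 1)) * p =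
      Δ + κ₀ * (-(R * cψ * S) + d * ((a * c + b / 2 * (2 * c ^ 2 - 1)) * p)) := by ring
  rw [h8]
  have hκ : (0 : ℝ) ≤ κ₀ := by norm_num [κ₀]
  have h9 := mul_le_mul_of_nonneg_left h7 hκ
  rw [κ₀] at h9 ⊢
  rw [γ₀] at hΔ
  linarith

/-- the compensating phase function -/
def G (a b x : ℝ) : ℝ := -κ₀ * (a * Real.sin x + b / 4 * Real.sin (2 * x))

lemma hasDerivAt_G (a b x : ℝ) :
    HasDerivAt (G a b) (-κ₀ * (a * Real.cos x + b / 2 * (2 * Real.cos x ^ 2 - 1))) x := by
  have h0 : HasDerivAt (fun x : ℝ => 2 * x) 2 x := by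
    refine ((hasDerivAt_id x).const_mul (2 : ℝ)).congr_deriv ?_
    ring
  have h1 : HasDerivAt (fun x : ℝ => Real.sin (2 * x)) (Real.cos (2 * x) * 2) x := h0.sin
  refine ((((Real.hasDerivAt_sin x).const_mul a).add (h1.const_mul (b / 4))).const_mul
    (-κ₀)).congr_deriv ?_
  rw [Real.cos_two_mul]
  ring

lemma abs_G_le (a b x : ℝ) (ha : 0 ≤ a) (hb : 0 ≤ b) (hab : a + b / 2 ≤ 2) :
    |G a b x| ≤ 0.002 := by
  rw [G, abs_mul, abs_neg, abs_of_nonneg (by norm_num [κ₀] : (0 : ℝ) ≤ κ₀)]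
  have h1 : |a * Real.sin x| ≤ a * 1 := by
    rw [abs_mul, abs_of_nonneg ha]
    exact mul_le_mul_of_nonneg_left (Real.abs_sin_le_one x) ha
  have h2 : |b / 4 * Real.sin (2 * x)| ≤ b / 4 * 1 := by
    rw [abs_mul, abs_of_nonneg (by linarith : 0 ≤ b / 4)]
    exact mul_le_mul_of_nonneg_left (Real.abs_sin_le_one _) (by linarith)
  have h3 := (abs_add_le _ _).trans (add_le_add h1 h2)
  have h4 : κ₀ * |a * Real.sin x + b / 4 * Real.sin (2 * x)| ≤ κ₀ * 2 := by
    apply mul_le_mul_of_nonneg_left _ (by norm_num [κ₀])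
    linarith
  refine h4.trans ?_
  norm_num [κ₀]

lemma exp_bounds (x : ℝ) (hx : |x| ≤ 0.002) : 0.99 ≤ Real.exp x ∧ Real.exp x ≤ 1.01 := by
  have h := abs_le.mp hx
  constructor
  · have := Real.add_one_le_exp x
    linarith [h.1]
  · have h1 := Real.add_one_le_exp (-x)
    have h2 : Real.exp x * Real.exp (-x) = 1 := by rw [← Real.exp_add]; simp
    have h3 : 0.998 ≤ Real.exp (-x) := by linarith [h.2]
    have h4 := Real.exp_pos x
    nlinarith

section analysis2

variable {N : ℕ} (hN : 1 ≤ N) {ω : Fin N → ℝ} {Θ : ℝ → Fin N → ℝ}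
  (hsol : IsSolution κ₀ ω (fun _ => 0) Θ)

include hN hsol

/-- Members of `C` stay together. -/
lemma locking (B C : Finset (Fin N)) (hBC : Disjoint B C) (hB : (1 / 4 : ℝ) * N ≤ B.card)
    (hC : (5 / 8 : ℝ) * N ≤ C.card)
    (hωC : ∀ i ∈ C, ω i ∈ Icc (1 - γ₀) (1 + γ₀))
    (hdeath : ∀ i ∈ B, ∀ t, 0 ≤ t → |Θ t i| < 1 / 200) :
    ∀ i ∈ C, ∀ j ∈ C, ∀ t, 0 ≤ t → |Θ t i - Θ t j| ≤ 0.0051 := by
  have hN' : (0 : ℝ) < N := by exact_mod_cast hN
  have hNne : (N : ℝ) ≠ 0 := hN'.ne'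
  have hCne : C.Nonempty := by
    rw [← Finset.card_pos]
    have : (0 : ℝ) < C.card := lt_of_lt_of_le (by positivity) hC
    exact_mod_cast this
  obtain ⟨i₀, hi₀⟩ := hCne
  set a : ℝ := (2 * B.card + C.card) / N with ha
  set b : ℝ := C.card / N with hb
  have hcard : (B.card : ℝ) + C.card ≤ N := by
    have h1 : (B ∪ C).card ≤ N := by
      simpa using Finset.card_le_univ (B ∪ C)
    rw [Finset.card_union_of_disjoint hBC] at h1
    exact_mod_cast h1
  have ha0 : 0 ≤ a := by positivity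
  have hb58 : 5 / 8 ≤ b := by rw [hb, le_div_iff₀ hN']; exact hC
  have hb1 : b ≤ 1 := by
    rw [hb, div_le_one hN']
    have : (0 : ℝ) ≤ B.card := Nat.cast_nonneg _
    linarith
  have hab : a + b / 2 ≤ 2 := by
    have e : a + b / 2 = (2 * B.card + 3 / 2 * C.card) / N := by rw [ha, hb]; field_simp; ring
    rw [e, div_le_iff₀ hN']
    have : (0 : ℝ) ≤ C.card := Nat.cast_nonneg _
    linarith
  -- the weighted differences
  set φ : ℝ → ℝ := fun t => Θ t i₀ with hφ
  set E : ℝ → ℝ := fun t => Real.exp (-G a b (φ t)) with hE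
  have hφd : ∀ t, 0 < t → HasDerivAt φ (rhs κ₀ ω (Θ t) i₀) t :=
    fun t ht => deriv_coord hsol i₀ t ht
  have hEd : ∀ t, 0 < t → HasDerivAt E (E t * (κ₀ * (a * Real.cos (φ t) +
      b / 2 * (2 * Real.cos (φ t) ^ 2 - 1)) * rhs κ₀ ω (Θ t) i₀)) t := by
    intro t ht
    have h1 := (hasDerivAt_G a b (φ t)).comp t (hφd t ht)
    refine (h1.neg.exp).congr_deriv ?_
    simp only [hE, Function.comp, Pi.neg_apply]
    ring
  have hEc : ContinuousOn E (Ici 0) := by
    have hG : Continuous (G a b) := by unfold G; fun_prop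
    exact (Real.continuous_exp.comp_continuousOn
      ((hG.comp_continuousOn (cont_coord hsol i₀)).neg))
  have hGb : ∀ x, |G a b x| ≤ 0.002 := fun x => abs_G_le a b x ha0 (by linarith) hab
  have hEb : ∀ t, 0.99 ≤ E t ∧ E t ≤ 1.01 := fun t => exp_bounds _ (by rw [abs_neg]; exact hGb _)
  have key := barrier (ι := {i // i ∈ C} × {i // i ∈ C})
    (f := fun k t => (Θ t k.1 - Θ t k.2) * E t)
    (f' := fun k t => (rhs κ₀ ω (Θ t) k.1 - rhs κ₀ ω (Θ t) k.2) * E t +
      (Θ t k.1 - Θ t k.2) * (E t * (κ₀ * (a * Real.cos (φ t) +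
      b / 2 * (2 * Real.cos (φ t) ^ 2 - 1)) * rhs κ₀ ω (Θ t) i₀)))
    (m := 1 / 200)
    (fun k => ((cont_coord hsol _).sub (cont_coord hsol _)).mul hEc)
    (fun k t ht => ((deriv_coord hsol _ t ht).sub (deriv_coord hsol _ t ht)).mul (hEd t ht))
    (fun k => by simp [zero_coord hsol])
    (by
      intro t ht hall k hk
      have hE1 := (hEb t).1
      have hE2 := (hEb t).2
      have hEpos : 0 < E t := by linarith
      -- all differences are small
      have hdiff : ∀ i ∈ C, ∀ j ∈ C, |Θ t i - Θ t j| ≤ 0.00506 := by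
        intro i hi j hj
        have h1 := hall (⟨i, hi⟩, ⟨j, hj⟩)
        have h2 := hall (⟨j, hj⟩, ⟨i, hi⟩)
        simp only at h1 h2
        rw [abs_le]
        constructor <;> nlinarith
      obtain ⟨⟨i, hi⟩, ⟨j, hj⟩⟩ := k
      simp only at hk ⊢
      set d := Θ t i - Θ t j with hd
      have hd0 : 0 < d := by
        by_contra hcon
        have : d * E t ≤ 0 := mul_nonpos_of_nonpos_of_nonneg (not_lt.mp hcon) hEpos.le
        linarith
      have hd1 : 0.0049 ≤ d := by nlinarith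
      have hd2 : d ≤ 0.0051 := by
        have := (abs_le.mp (hdiff i hi j hj)).2
        linarith
      set R := (∑ j, (1 + Real.cos (Θ t j))) / N with hR
      set ψ := (Θ t i + Θ t j) / 2 with hψ
      have hsub : rhs κ₀ ω (Θ t) i - rhs κ₀ ω (Θ t) j =
          (ω i - ω j) - κ₀ * R * Real.cos ψ * (2 * Real.sin (d / 2)) := by
        rw [rhs, rhs, hR, hψ, hd]
        have := Real.sin_sub_sin (Θ t i) (Θ t j)
        linear_combination (-(κ₀ / N * ∑ j, (1 + Real.cos (Θ t j)))) * this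
      -- decomposition of R
      set O : Finset (Fin N) := (B ∪ C)ᶜ with hO
      set o := (∑ j ∈ O, (1 + Real.cos (Θ t j))) / N with ho
      have hsplit : ∑ j, (1 + Real.cos (Θ t j)) = ∑ j ∈ B, (1 + Real.cos (Θ t j)) +
          ∑ j ∈ C, (1 + Real.cos (Θ t j)) + ∑ j ∈ O, (1 + Real.cos (Θ t j)) := by
        rw [hO, ← Finset.sum_union hBC, Finset.sum_add_sum_compl]
      have hBsum : |∑ j ∈ B, (1 + Real.cos (Θ t j)) - 2 * B.card| ≤ B.card * 0.005 := by
        have e : ∑ j ∈ B, (1 + Real.cos (Θ t j)) - 2 * B.card =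
            ∑ j ∈ B, (Real.cos (Θ t j) - Real.cos 0) := by
          have h2 : (2 * B.card : ℝ) = ∑ _j ∈ B, (2 : ℝ) := by simp [mul_comm]
          rw [h2, ← Finset.sum_sub_distrib]
          refine Finset.sum_congr rfl fun j _ => ?_
          rw [Real.cos_zero]; ring
        rw [e]
        refine (Finset.abs_sum_le_sum_abs _ _).trans ?_
        have h3 : (B.card * 0.005 : ℝ) = ∑ _j ∈ B, (0.005 : ℝ) := by simp
        rw [h3]
        apply Finset.sum_le_sum
        intro j hj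
        refine (Real.abs_cos_sub_cos_le _ _).trans ?_
        rw [sub_zero]
        have := hdeath j hj t ht.le
        norm_num at this ⊢
        linarith
      have hCsum : |∑ j ∈ C, (1 + Real.cos (Θ t j)) - C.card * (1 + Real.cos (φ t))| ≤
          C.card * 0.0051 := by
        have e : ∑ j ∈ C, (1 + Real.cos (Θ t j)) - C.card * (1 + Real.cos (φ t)) =
            ∑ j ∈ C, (Real.cos (Θ t j) - Real.cos (φ t)) := by
          have h2 : (C.card * (1 + Real.cos (φ t)) : ℝ) = ∑ _j ∈ C, (1 + Real.cos (φ t)) := by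
            rw [Finset.sum_const, nsmul_eq_mul]
          rw [h2, ← Finset.sum_sub_distrib]
          refine Finset.sum_congr rfl fun j _ => ?_
          ring
        rw [e]
        refine (Finset.abs_sum_le_sum_abs _ _).trans ?_
        have h3 : (C.card * 0.0051 : ℝ) = ∑ _j ∈ C, (0.0051 : ℝ) := by simp
        rw [h3]
        apply Finset.sum_le_sum
        intro j hj
        refine (Real.abs_cos_sub_cos_le _ _).trans ?_
        have := hdiff j hj i₀ hi₀
        simp only [hφ]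
        linarith
      have hOsum : 0 ≤ ∑ j ∈ O, (1 + Real.cos (Θ t j)) ∧
          ∑ j ∈ O, (1 + Real.cos (Θ t j)) ≤ 2 * O.card := by
        constructor
        · exact Finset.sum_nonneg fun j _ => by linarith [Real.neg_one_le_cos (Θ t j)]
        · have h2 : (2 * O.card : ℝ) = ∑ _j ∈ O, (2 : ℝ) := by simp [mul_comm]
          rw [h2]
          exact Finset.sum_le_sum fun j _ => by linarith [Real.cos_le_one (Θ t j)]
      have hOcard : (O.card : ℝ) = N - (B.card + C.card) := by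
        rw [hO, Finset.card_compl, Finset.card_union_of_disjoint hBC, Fintype.card_fin,
          Nat.cast_sub (by exact_mod_cast hcard)]
        push_cast; ring
      have ho0 : 0 ≤ o := div_nonneg hOsum.1 hN'.le
      have ho1 : o ≤ 1 / 4 := by
        rw [ho, div_le_iff₀ hN']
        linarith [hOsum.2]
      have hRsum := sum_bounds (Θ t)
      have hR0 : 0 ≤ R := div_nonneg hRsum.1 hN'.le
      have hR2 : R ≤ 2 := by rw [hR, div_le_iff₀ hN']; exact hRsum.2
      have hRapp : |R - (a + b * Real.cos (φ t) + o)| ≤ 0.0102 := by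
        have e : R - (a + b * Real.cos (φ t) + o) =
            ((∑ j ∈ B, (1 + Real.cos (Θ t j)) - 2 * B.card) +
              (∑ j ∈ C, (1 + Real.cos (Θ t j)) - C.card * (1 + Real.cos (φ t)))) / N := by
          rw [hR, ha, hb, ho, hsplit]
          field_simp
          ring
        rw [e, abs_div, abs_of_pos hN', div_le_iff₀ hN']
        refine (abs_add_le _ _).trans ?_
        have h1 : (0 : ℝ) ≤ B.card := Nat.cast_nonneg _
        have h2 : (0 : ℝ) ≤ C.card := Nat.cast_nonneg _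
        linarith
      have hψc : |Real.cos ψ - Real.cos (φ t)| ≤ 0.0051 := by
        refine (Real.abs_cos_sub_cos_le _ _).trans ?_
        have e : ψ - φ t = ((Θ t i - Θ t i₀) + (Θ t j - Θ t i₀)) / 2 := by
          rw [hψ, hφ]; ring
        rw [e, abs_div, abs_of_pos (by norm_num : (0 : ℝ) < 2)]
        have h1 := hdiff i hi i₀ hi₀
        have h2 := hdiff j hj i₀ hi₀
        have h3 := (abs_add_le _ _).trans (add_le_add h1 h2)
        linarith
      have hp : |rhs κ₀ ω (Θ t) i₀ - 1| ≤ 0.0021 := by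
        have e : rhs κ₀ ω (Θ t) i₀ - 1 = (ω i₀ - 1) - κ₀ * R * Real.sin (Θ t i₀) := by
          rw [rhs, hR]; ring
        rw [e]
        have h1 : |κ₀ * R * Real.sin (Θ t i₀)| ≤ 0.001 * 2 * 1 := by
          rw [abs_mul, abs_mul, abs_of_nonneg hR0, abs_of_nonneg (by norm_num [κ₀] : (0:ℝ) ≤ κ₀)]
          refine mul_le_mul (mul_le_mul (by norm_num [κ₀]) hR2 hR0 (by norm_num))
            (Real.abs_sin_le_one _) (abs_nonneg _) (by norm_num)
        have h2 : |ω i₀ - 1| ≤ γ₀ := by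
          have := hωC i₀ hi₀
          rw [abs_le]; constructor <;> linarith [this.1, this.2]
        have h3 := (abs_sub _ _).trans (add_le_add h2 h1)
        rw [γ₀] at h3
        norm_num at h3 ⊢
        linarith
      have hΔ : ω i - ω j ≤ 2 * γ₀ := by
        have h1 := hωC i hi
        have h2 := hωC j hj
        linarith [h1.2, h2.1]
      have hmain := key_ineq a b o R (Real.cos (φ t)) (Real.cos ψ) (2 * Real.sin (d / 2)) d
        (rhs κ₀ ω (Θ t) i₀) (ω i - ω j) ha0 hb58 hab ho0 ho1 (Real.abs_cos_le_one _) hRapp hR0 hR2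
        hψc (Real.abs_cos_le_one _) hd1 hd2 (two_sin_half d hd0) hp hΔ
      rw [hsub]
      have e : (ω i - ω j - κ₀ * R * Real.cos ψ * (2 * Real.sin (d / 2))) * E t +
          d * (E t * (κ₀ * (a * Real.cos (φ t) + b / 2 * (2 * Real.cos (φ t) ^ 2 - 1)) *
            rhs κ₀ ω (Θ t) i₀)) =
          (ω i - ω j - κ₀ * R * Real.cos ψ * (2 * Real.sin (d / 2)) +
            κ₀ * d * (a * Real.cos (φ t) + b / 2 * (2 * Real.cos (φ t) ^ 2 - 1)) *
            rhs κ₀ ω (Θ t) i₀) * E t := by ring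
      rw [e]
      exact mul_neg_of_neg_of_pos hmain hEpos)
  intro i hi j hj t ht
  have h1 := key (⟨i, hi⟩, ⟨j, hj⟩) t ht
  have h2 := key (⟨j, hj⟩, ⟨i, hi⟩) t ht
  simp only at h1 h2
  have hE1 := (hEb t).1
  rw [abs_le]
  constructor <;> nlinarith

/-- Members of `C` drift. -/
lemma drift (i : Fin N) (hωi : ω i ∈ Icc (1 - γ₀) (1 + γ₀)) (t : ℝ) (ht : 0 ≤ t) :
    1 / 2 * t ≤ Θ t i := by
  have hN' : (0 : ℝ) < N := by exact_mod_cast hN
  have hmv := Convex.mul_sub_le_image_sub_of_le_deriv (convex_Ici (0 : ℝ))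
    (f := fun s => Θ s i) (cont_coord hsol i)
    (fun s hs => by
      rw [interior_Ici] at hs
      exact (deriv_coord hsol i s hs).differentiableAt.differentiableWithinAt)
    (C := 1 / 2)
    (fun s hs => by
      rw [interior_Ici] at hs
      rw [(deriv_coord hsol i s hs).deriv]
      have hS := sum_bounds (Θ s)
      set R := (∑ j, (1 + Real.cos (Θ s j))) / N with hR
      have hR0 : 0 ≤ R := div_nonneg hS.1 hN'.le
      have hR2 : R ≤ 2 := by rw [hR, div_le_iff₀ hN']; exact hS.2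
      have e : rhs κ₀ ω (Θ s) i = ω i - κ₀ * R * Real.sin (Θ s i) := by
        rw [rhs, hR]; ring
      have h1 : |κ₀ * R * Real.sin (Θ s i)| ≤ 0.001 * 2 * 1 := by
        rw [abs_mul, abs_mul, abs_of_nonneg hR0, abs_of_nonneg (by norm_num [κ₀] : (0:ℝ) ≤ κ₀)]
        refine mul_le_mul (mul_le_mul (by norm_num [κ₀]) hR2 hR0 (by norm_num))
          (Real.abs_sin_le_one _) (abs_nonneg _) (by norm_num)
      have h2 := (abs_le.mp h1).2
      have h3 := hωi.1
      rw [γ₀] at h3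
      rw [e]
      norm_num at h2 h3 ⊢
      linarith)
    0 (mem_Ici.mpr le_rfl) t ht ht
  have h0 : Θ 0 i = 0 := zero_coord hsol i
  simp only [sub_zero, h0] at hmv
  exact hmv

end analysis2

/-- **Q1 holds.** -/
theorem result : ∃ ρ₁ ρ₂ γ κ : ℝ, ρ₁ ∈ Ioc (0 : ℝ) 1 ∧ ρ₂ ∈ Ioc (0 : ℝ) 1 ∧ γ ∈ Ioc (0 : ℝ) 1 ∧
    ρ₁ + ρ₂ ≤ 1 ∧ 0 < κ ∧
    ∀ (N : ℕ), 1 ≤ N → ∀ (ω : Fin N → ℝ) (B C : Finset (Fin N)), Disjoint B C →
      ρ₁ * N ≤ B.card → ρ₂ * N ≤ C.card → (∀ i ∈ B, ω i ∈ Icc (-γ) γ) →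
      (∀ i ∈ C, ω i ∈ Icc (1 - γ) (1 + γ)) →
      ∃ Θ₀ : Fin N → ℝ, (∃ Θ, IsSolution κ ω Θ₀ Θ) ∧
        ∀ Θ, IsSolution κ ω Θ₀ Θ → PartialDeath B Θ ∧ PartialLocking C Θ := by
  refine ⟨1 / 4, 5 / 8, γ₀, κ₀, ⟨by norm_num, by norm_num⟩, ⟨by norm_num, by norm_num⟩,
    ⟨by norm_num [γ₀], by norm_num [γ₀]⟩, by norm_num, by norm_num [κ₀], ?_⟩
  intro N hN ω B C hBC hB hC hωB hωC
  refine ⟨fun _ => 0, exists_solution hN κ₀ (by norm_num [κ₀]) ω _, fun Θ hsol => ?_⟩
  have hdeath := death hN hsol B hB hωB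
  have hlock := locking hN hsol B C hBC hB hC hωC hdeath
  refine ⟨fun i hi => ⟨1 / 200, fun t ht => (hdeath i hi t ht).le⟩,
    fun i hi j hj => ⟨0.0051, hlock i hi j hj⟩, fun i hi hlim => ?_⟩
  have hev : ∀ᶠ t in atTop, (1 / 2 : ℝ) ≤ Θ t i / t := by
    filter_upwards [eventually_gt_atTop 0] with t ht
    rw [le_div_iff₀ ht]
    exact drift hN hsol i (hωC i hi) t ht.le
  have := ge_of_tendsto hlim hev
  norm_num at this

end

end Pool.Agent.Results.MP_3a3e96_an.CoexistenceHolds
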